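import Pool.Agent.W910.FC.Collapse
import Pool.Agent.W910.Hull.Tower

/-!
# Martin's axiom does not give a monotone Borel hull operation on the Lebesgue measurable sets

* Martin's axiom together with the failure of the continuum hypothesis implies that there is no
  monotone Borel hull operation on the Lebesgue measurable sets.
* There is a preordered set of forcing conditions which preserves `ω₁` and forces Martin's axiom
  for `ℵ₁` dense sets together with `𝔠 ≤ ℵ₂`; these two statements imply the full Martin's axiom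
  and the failure of the continuum hypothesis.

The forcing language is the one of `Pool.Agent.Helper669.Forcing`: a sentence is the set of the
conditions which force it, `fnot`, `fand`, `fall` are the primitive connectives and `fimp`, `fex`
are defined from them classically; a name for a subset of a ground model set `X` is a map sending
`x : X` to a set of conditions, and `meets N` says that the generic filter meets `N`. The sentence
`MartinHolds P X` is the translation into the forcing language of the proposition `MartinFor X`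
(both are in `Pool.Agent.W684.FM.Defs`), which is Martin's axiom for preorders with underlying set
`X` and `X`-indexed families of dense sets; `ContinuumLe P Y` says that in the extension there is a
map from `Y` onto the set of all functions from the natural numbers to themselves.
-/

set_option autoImplicit false

namespace Pool.Agent.Results.MP_97b08f_lc.MartinNoHull

open Cardinal MeasureTheory Pool.Agent.Helper669.Forcing Pool.Agent.W684.FM

/-- The countable chain condition: every set of pairwise incompatible conditions is countable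
(a smaller condition is stronger). -/
def IsCCC (P : Type) [Preorder P] : Prop :=
  ∀ A : Set P, (∀ p ∈ A, ∀ q ∈ A, p ≠ q → ¬ ∃ r : P, r ≤ p ∧ r ≤ q) → A.Countable

/-- There is a filter in `P` which meets every member of the family `𝒟`. -/
def HasGenericFilter (P : Type) [Preorder P] (𝒟 : Set (Set P)) : Prop :=
  ∃ G : Set P, G.Nonempty ∧ (∀ p ∈ G, ∀ q : P, p ≤ q → q ∈ G) ∧
    (∀ p ∈ G, ∀ q ∈ G, ∃ r ∈ G, r ≤ p ∧ r ≤ q) ∧ ∀ D ∈ 𝒟, (G ∩ D).Nonempty

/-- Martin's axiom: for every nonempty preordered set `P` with the countable chain condition and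
every family of fewer than `𝔠` dense subsets of `P` there is a filter in `P` which meets each of
them. -/
def MartinAxiom : Prop :=
  ∀ (P : Type) [Preorder P] [Nonempty P], IsCCC P →
    ∀ 𝒟 : Set (Set P), #𝒟 < 𝔠 → (∀ D ∈ 𝒟, ∀ p : P, ∃ q ∈ D, q ≤ p) → HasGenericFilter P 𝒟

/-- Martin's axiom for `ℵ₁` dense sets. -/
def MartinAxiomAleph1 : Prop :=
  ∀ (P : Type) [Preorder P] [Nonempty P], IsCCC P →
    ∀ 𝒟 : Set (Set P), #𝒟 ≤ ℵ₁ → (∀ D ∈ 𝒟, ∀ p : P, ∃ q ∈ D, q ≤ p) → HasGenericFilter P 𝒟

/-- The Lebesgue measurable sets of reals (measurable for the completed measure). -/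
def LebesgueSets : Set (Set ℝ) := {A | NullMeasurableSet A volume}

/-- There is a monotone Borel hull operation on the family `F`. -/
def HasMonotoneBorelHull (F : Set (Set ℝ)) : Prop :=
  ∃ ψ : Set ℝ → Set ℝ,
    (∀ A ∈ F, MeasurableSet[borel ℝ] (ψ A) ∧ A ⊆ ψ A ∧ volume (ψ A \ A) = 0) ∧
    ∀ A ∈ F, ∀ B ∈ F, A ⊆ B → ψ A ⊆ ψ B

/-- Q1: the answer is negative. Martin's axiom with `ℵ₁ < 𝔠` implies that there is no monotone Borel
hull operation on the Lebesgue measurable sets (so under Martin's axiom such an operation can exist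
only if the continuum hypothesis holds), and there is a preordered set `P` of forcing conditions
such that every condition forces that `ω₁` is preserved, that Martin's axiom for `ℵ₁` dense sets
holds and that the continuum is at most `ℵ₂`; these imply Martin's axiom and `ℵ₁ < 𝔠`. -/
theorem result :
    (MartinAxiom → HasMonotoneBorelHull LebesgueSets → (𝔠 : Cardinal.{0}) = ℵ₁) ∧
    (∃ (P : Type) (_ : Preorder P), Nonempty P ∧ ∀ p : P,
      p ∈ OmegaOnePreserved P ∧ p ∈ MartinHolds P Om1 ∧
        p ∈ ContinuumLe P (ℵ_ 2 : Cardinal.{0}).out) ∧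
    (MartinFor Om1 ↔ MartinAxiomAleph1) ∧
    ((∃ E : (ℵ_ 2 : Cardinal.{0}).out → ℕ → ℕ, Function.Surjective E) ↔
      (𝔠 : Cardinal.{0}) ≤ ℵ_ 2) ∧
    (MartinAxiomAleph1 → (𝔠 : Cardinal.{0}) ≤ ℵ_ 2 →
      MartinAxiom ∧ ℵ₁ < (𝔠 : Cardinal.{0}) ∧ ¬ HasMonotoneBorelHull LebesgueSets) := by
  have hborel : (inferInstance : MeasurableSpace ℝ) = borel ℝ := BorelSpace.measurable_eq
  have hno : MartinAxiomAleph1 → ¬ HasMonotoneBorelHull LebesgueSets := by
    rintro hMA ⟨ψ, h1, h2⟩
    refine Pool.Agent.W910.Hull.no_hull hMA ψ (fun A hA => ?_) fun A B hA hB => h2 A hA B hB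
    obtain ⟨h3, h4, h5⟩ := h1 A hA
    rw [← hborel] at h3
    exact ⟨h3, h4, h5⟩
  refine ⟨?_, Pool.Agent.W910.FC.exists_forcing, martinFor_om1_iff, ?_, ?_⟩
  · intro hMA hH
    by_contra hne
    have hlt : ℵ₁ < (𝔠 : Cardinal.{0}) :=
      lt_of_le_of_ne Cardinal.aleph_one_le_continuum (Ne.symm hne)
    exact hno (fun P _ _ hP 𝒟 h𝒟 => hMA P hP 𝒟 (h𝒟.trans_lt hlt)) hH
  · have h1 : #(ℕ → ℕ) = (𝔠 : Cardinal.{0}) := by
      simp
    constructor
    · rintro ⟨E, hE⟩
      have h2 := mk_le_of_surjective hE
      rwa [h1, mk_out] at h2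
    · intro h
      rw [← h1, ← mk_out (ℵ_ 2)] at h
      obtain ⟨e⟩ := h
      exact ⟨Function.invFun e, Function.invFun_surjective e.injective⟩
  · intro hMA hc
    refine ⟨?_, ?_, hno hMA⟩
    · intro P _ _ hP 𝒟 h𝒟
      apply hMA P hP 𝒟
      have h1 := h𝒟.trans_le hc
      rwa [← Pool.Agent.W910.Hull.succ_aleph1, Order.lt_succ_iff] at h1
    · by_contra hlt
      rw [not_lt] at hlt
      have h1 := Pool.Agent.W910.Hull.null_iUnion (ι := ℝ) hMA (by rwa [Cardinal.mk_real])
        (fun x => {x}) (fun x => Real.volume_singleton)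
      rw [show (⋃ i : ℝ, ({i} : Set ℝ)) = Set.univ from Set.iUnion_of_singleton ℝ,
        Real.volume_univ] at h1
      exact absurd h1 ENNReal.top_ne_zero

end Pool.Agent.Results.MP_97b08f_lc.MartinNoHull
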